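import Pool.Agent.Y472.B.Defs
import Pool.Agent.Y481.Far

/-!
# Elimination of many variables: definitions and statements

Functions of `L` complex variables are functions on `ℕ → ℂ` which depend on the first `L` variables.
-/

set_option autoImplicit false

namespace Pool.Agent.Y472

open Finset Filter Topology Metric
open Pool.Agent.W711.HT
open Pool.Agent.Y481 (itI itN Sep wts cw)
open scoped Real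

/-- extension by zero -/
def ex (L : ℕ) (x : Fin L → ℂ) : ℕ → ℂ := fun i => if h : i < L then x ⟨i, h⟩ else 0

/-- the box, finitely many variables -/
def bx (L : ℕ) (R : ℝ) : Set (Fin L → ℂ) := {x | ∀ i, x i ∈ Rc R R}

/-- the box -/
def Bx (L : ℕ) (R : ℝ) : Set (ℕ → ℂ) := {ψ | ∀ i < L, ψ i ∈ Rc R R}

/-- A potential `S` of `L` variables with the partial derivatives `D j`. -/
structure Pot (L : ℕ) (R c B p₀ : ℝ) (S : (ℕ → ℂ) → ℂ) (D : ℕ → (ℕ → ℂ) → ℂ) : Prop where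
  hR : 0 < R ∧ R ≤ 1
  hc : 0 < c
  hB : 0 < B
  hp : 0 < p₀
  dep : ∀ ψ ψ' : ℕ → ℂ, (∀ i < L, ψ i = ψ' i) → S ψ = S ψ' ∧ ∀ j, D j ψ = D j ψ'
  an : DifferentiableOn ℂ (fun x => S (ex L x)) (bx L R)
  dan : ∀ j < L, DifferentiableOn ℂ (fun x => D j (ex L x)) (bx L R)
  der : ∀ ψ ∈ Bx L R, ∀ j < L, HasDerivAt (fun w => S (Function.update ψ j w)) (D j ψ) (ψ j)
  bd : ∀ ψ ∈ Bx L R, ‖S ψ‖ ≤ B ∧ ∀ j < L, ‖D j ψ‖ ≤ B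
  ev : ∀ ψ ∈ Bx L R, ∀ j < L, S (Function.update ψ j (-ψ j)) = S ψ
  conc : ∀ ψ ∈ Bx L R, ∀ j < L, (deriv (fun w => D j (Function.update ψ j w)) (ψ j)).re ≤ -c
  pos : ∀ ψ ∈ Bx L R, p₀ ≤ (S ψ).re

/-- the value with the terms of the first `j` twist regions -/
noncomputable def Uj (S : (ℕ → ℂ) → ℂ) (a : ℕ → ℤ) (j : ℕ) (y : ℕ → ℂ) : ℂ :=
  S y + ∑ i ∈ range j, (Complex.I * a i * y i ^ 2 / (4 * π) + Complex.I * y i)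

/-- `zz j ψ` is the configuration whose first `j` variables are critical, the others are those of
`ψ`. -/
structure Crt (L : ℕ) (R c B p₀ C : ℝ) (S : (ℕ → ℂ) → ℂ) (D : ℕ → (ℕ → ℂ) → ℂ) (a : ℕ → ℤ)
    (zz : ℕ → (ℕ → ℂ) → ℕ → ℂ) : Prop where
  rest : ∀ j ≤ L, ∀ ψ ∈ Bx L (R / 2), ∀ i, j ≤ i → zz j ψ i = ψ i
  sm : ∀ j ≤ L, ∀ ψ ∈ Bx L (R / 2), ∀ i < j, ‖zz j ψ i‖ ≤ C / |(a i : ℝ)| ∧
    C / |(a i : ℝ)| < R / 4 ∧ ‖zz j ψ i + 2 * π / a i‖ ≤ C / (a i : ℝ) ^ 2 ∧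
    1 / (C * (a i : ℝ) ^ 2) ≤ (zz j ψ i).im
  crit : ∀ j ≤ L, ∀ ψ ∈ Bx L (R / 2), ∀ i < j,
    Complex.I * a i * zz j ψ i / (2 * π) + Complex.I + D i (zz j ψ) = 0
  uniq : ∀ j ≤ L, ∀ ψ ∈ Bx L (R / 2), ∀ y ∈ Bx L (R / 2), (∀ i, j ≤ i → y i = ψ i) →
    (∀ i < j, Complex.I * a i * y i / (2 * π) + Complex.I + D i y = 0) → y = zz j ψ
  dep : ∀ j ≤ L, ∀ ψ ∈ Bx L (R / 2), ∀ ψ' ∈ Bx L (R / 2), (∀ i, j ≤ i → ψ i = ψ' i) →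
    zz j ψ = zz j ψ'
  der : ∀ j ≤ L, ∀ ψ ∈ Bx L (R / 2), ∀ i, j ≤ i → i < L →
    HasDerivAt (fun w => Uj S a j (zz j (Function.update ψ i w))) (D i (zz j ψ)) (ψ i)
  conc : ∀ j ≤ L, ∀ ψ ∈ Bx L (R / 2), ∀ i, j ≤ i → i < L →
    (deriv (fun w => D i (zz j (Function.update ψ i w))) (ψ i)).re ≤ -(c / 2)
  ev : ∀ j ≤ L, ∀ ψ ∈ Bx L (R / 2), ∀ i, j ≤ i → i < L →
    Uj S a j (zz j (Function.update ψ i (-ψ i))) = Uj S a j (zz j ψ)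
  close : ∀ j ≤ L, ∀ ψ ∈ Bx L (R / 2),
    ‖Uj S a j (zz j ψ) - S (fun i => if i < j then 0 else ψ i)‖ ≤ ∑ i ∈ range j, C / |(a i : ℝ)| ∧
    p₀ / 2 ≤ (Uj S a j (zz j ψ)).re
  step : ∀ j < L, ∀ ψ ∈ Bx L (R / 2),
    Uj S a (j + 1) (zz (j + 1) ψ) =
      qq (a j) (fun w => Uj S a j (zz j (Function.update ψ j w))) (zz (j + 1) ψ j) ∧
    zz j (Function.update ψ j (zz (j + 1) ψ j)) = zz (j + 1) ψ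

/-- CR: critical points with parameters -/
def S_CR : Prop := ∀ (L : ℕ) (R c B p₀ : ℝ), ∃ C M : ℝ, 0 < C ∧ 0 < M ∧
  ∀ (S : (ℕ → ℂ) → ℂ) (D : ℕ → (ℕ → ℂ) → ℂ), Pot L R c B p₀ S D → ∀ a : ℕ → ℤ,
    (∀ j < L, M ≤ |(a j : ℝ)|) → ∃ zz : ℕ → (ℕ → ℂ) → ℕ → ℂ, Crt L R c B p₀ C S D a zz

/-- limits along sequences -/
def SeqLim (L : ℕ) (R : ℝ) (f : ℕ → (ℕ → ℂ) → ℂ) (Φ : (ℕ → ℂ) → ℂ) : Prop :=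
  ∀ (ψ : ℕ → ℕ → ℂ) (ψ₀ : ℕ → ℂ), ψ₀ ∈ Bx L R →
    (∀ i < L, Tendsto (fun N => ψ N i) atTop (𝓝 (ψ₀ i))) →
    Tendsto (fun N : ℕ => Real.log ‖f N (ψ N)‖ / N) atTop (𝓝 (Φ ψ₀).re)

/-- EL: elimination of the variables number `0, …, j - 1`; `ρ = R / 8` -/
def S_EL : Prop := ∀ (L : ℕ) (R c B p₀ C : ℝ), 0 < C → ∃ M : ℝ, 0 < M ∧
  ∀ (S : (ℕ → ℂ) → ℂ) (D : ℕ → (ℕ → ℂ) → ℂ), Pot L R c B p₀ S D → ∀ a : ℕ → ℤ,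
    (∀ j < L, M ≤ |(a j : ℝ)|) → ∀ zz : ℕ → (ℕ → ℂ) → ℕ → ℂ, Crt L R c B p₀ C S D a zz →
    ∀ f : ℕ → (ℕ → ℂ) → ℂ, (∀ N, Sep L (f N)) → SeqLim L (R / 2) f S →
      ∀ j ≤ L, SeqLim L (R / 2) (fun N => itN (fun _ => R / 8) a N j (f N))
        (fun ψ => Uj S a j (zz j ψ))

/-! ### The variable of the axis -/

/-- CHI: the sum over the values `χ = 2 π p / N` -/
def S_CHI : Prop := ∀ (R c B p₀ : ℝ), 0 < R → R ≤ 1 → 0 < c → 0 < p₀ → ∃ C M : ℝ, 0 < C ∧ 0 < M ∧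
  ∀ (X : ℕ → ℂ → ℂ) (G : ℂ → ℂ), (∀ N, Differentiable ℂ (X N)) → (∀ N z, X N (-z) = X N z) →
    DifferentiableOn ℂ G (Rc R R) → (∀ z ∈ Rc R R, G (-z) = G z) →
    (∀ z ∈ Rc R R, ‖G z‖ ≤ B ∧ (deriv (deriv G) z).re ≤ -c ∧ p₀ ≤ (G z).re) → MW X G (Rc R R) →
    ∀ m : ℤ, M ≤ |(m : ℝ)| → ∃ z : ℂ, z ∈ Rc (R / 4) (R / 4) ∧ 0 < z.im ∧ ‖z‖ ≤ C / |(m : ℝ)| ∧
      Complex.I * m * z / π + Complex.I + deriv G z = 0 ∧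
      ‖Complex.I * m * z ^ 2 / (2 * π) + Complex.I * z + G z - G 0‖ ≤ C / |(m : ℝ)| ∧
      Tendsto (fun N : ℕ => Real.log ‖∑ p ∈ Icc (-(⌊R / 4 * N / (2 * π)⌋₊ : ℤ)) ⌊R / 4 * N / (2 * π)⌋₊,
        deriv (fun χ => wE N m χ * X N χ) (2 * π * p / N)‖ / N) atTop
        (𝓝 (Complex.I * m * z ^ 2 / (2 * π) + Complex.I * z + G z).re)

/-! ### Assembly -/

/-- the potential of the ring; the variable number `n` is `χ` -/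
noncomputable def Sr (s : ℂ → ℂ → ℂ → ℂ) (n : ℕ) (ψ : ℕ → ℂ) : ℂ :=
  ∑ j ∈ range n, s (ψ j) (ψ ((j + 1) % n)) (ψ n)

/-- its partial derivatives -/
noncomputable def Dr (s : ℂ → ℂ → ℂ → ℂ) (n : ℕ) (j : ℕ) (ψ : ℕ → ℂ) : ℂ :=
  deriv (fun w => Sr s n (Function.update ψ j w)) (ψ j)

/-- POT: the ring has a potential -/
def S_POT : Prop := ∀ (ρ₀ c C : ℝ) (s dl : ℂ → ℂ → ℂ → ℂ), SD3 ρ₀ c C s dl →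
  ∃ R c' : ℝ, 0 < R ∧ R ≤ ρ₀ ∧ 0 < c' ∧ ∀ n : ℕ, 2 ≤ n → ∃ B : ℝ, 0 < B ∧
    Pot (n + 1) R c' B bet (Sr s n) (Dr s n)

/-- XL: asymptotics of `XN` -/
def S_XL : Prop := S_POT → S_CR → S_EL → S_MWK3 → S_KB3 → ∀ (ρ₀ c C : ℝ) (s dl : ℂ → ℂ → ℂ → ℂ),
  SD3 ρ₀ c C s dl → ∀ k : ℕ, 1 ≤ k → ∃ R c' : ℝ, 0 < R ∧ R ≤ 1 ∧ R ≤ ρ₀ ∧ 0 < c' ∧
    ∃ B C' M : ℝ, 0 < B ∧ 0 < C' ∧ 0 < M ∧ ∀ ls : List (ℤ × ℤ), ls.length = k →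
      (∀ p ∈ ls, M ≤ |(p.1 : ℝ)| ∧ M ≤ |(p.2 : ℝ)|) → ∃ (G : ℂ → ℂ) (z : ℂ → ℕ → ℂ),
        DifferentiableOn ℂ G (Rc R R) ∧ (∀ χ ∈ Rc R R, G (-χ) = G χ) ∧
        (∀ χ ∈ Rc R R, ‖G χ‖ ≤ B ∧ (deriv (deriv G) χ).re ≤ -c' ∧ bet / 2 ≤ (G χ).re) ∧
        MW (XN ls) G (Rc R R) ∧
        (∀ χ ∈ Rc R R, (∀ j < 2 * k, z χ j ∈ Rc (R / 2) (R / 2) ∧ 0 < (z χ j).im ∧
            ‖z χ j‖ ≤ 1 / 10 ∧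
          Complex.I * cw ls ((j + 1) % (2 * k)) * z χ ((j + 1) % (2 * k)) / (2 * π) + Complex.I +
            deriv (fun w => s (z χ j) w χ) (z χ ((j + 1) % (2 * k))) +
            deriv (fun w => s w (z χ (((j + 1) % (2 * k) + 1) % (2 * k))) χ)
              (z χ ((j + 1) % (2 * k))) = 0) ∧
          deriv G χ = ∑ j ∈ range (2 * k), deriv (fun w => s (z χ j) (z χ ((j + 1) % (2 * k))) w) χ ∧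
          G χ = ∑ j ∈ range (2 * k), (Complex.I * cw ls j * z χ j ^ 2 / (4 * π) +
            Complex.I * z χ j + s (z χ j) (z χ ((j + 1) % (2 * k))) χ)) ∧
        ∀ m : ℝ, (∀ p ∈ ls, m ≤ |(p.1 : ℝ)| ∧ m ≤ |(p.2 : ℝ)|) → 0 < m →
          ‖G 0 - ((4 * k * bet : ℝ) : ℂ)‖ ≤ C' / m

/-- MAIN3: the growth rate -/
def S_MAIN3 : Prop := ∃ (ρ₀ c C : ℝ) (s dl : ℂ → ℂ → ℂ → ℂ), SD3 ρ₀ c C s dl ∧ ∀ k : ℕ, 1 ≤ k →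
  ∃ M : ℝ, ∀ (ls : List (ℤ × ℤ)) (m : ℤ), ls.length = k →
    (∀ p ∈ ls, M ≤ |(p.1 : ℝ)| ∧ M ≤ |(p.2 : ℝ)|) → M ≤ |(m : ℝ)| →
    ∃ (z : ℕ → ℂ) (χ : ℂ), RCrit3 s ρ₀ (2 * k) (cw ls) m z χ ∧
      Tendsto (fun N : ℕ => Real.log ‖Pool.Agent.H550R3.Jones.cjones N 2 (ftw m ++ bw ls) (vN N)‖ / N)
        atTop (𝓝 (RVal3 s (2 * k) (cw ls) m z χ).re)

end Pool.Agent.Y472
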